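import Pool.Agent.Helper56.TOF.Goals2
import Mathlib

/-!
# Project TOF (MP_f32c9c_an), packet BLK: orbits near closed orbits
-/

set_option autoImplicit false

open Set Filter Topology MeasureTheory

open scoped ContDiff

namespace Pool.Agent.Helper50.TOF

open Pool.Agent.Helper56.RZ Pool.Agent.Helper30.CIR Pool.Agent.Helper56.TOF

variable {K : ℕ} {s : WithTop ℕ∞} {M : Set (E K)} {A : ℝ → E K → E K}

theorem iter (hA : Flow s M A) (k : ℕ) : ∀ x ∈ M, (A 1)^[k] x = A k x := by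
  induction k with
  | zero =>
    intro x hx
    simp [hA.zero x hx]
  | succ k ih =>
    intro x hx
    rw [Function.iterate_succ_apply', ih x hx]
    push_cast
    rw [add_comm, hA.add 1 k x hx]

theorem iter2 (hA : Flow s M A) (n k : ℕ) (x : E K) (hx : x ∈ M) :
    ((A 1)^[n])^[k] x = A ((n : ℝ) * k) x := by
  rw [← Function.iterate_mul, iter hA _ x hx]
  push_cast
  rfl

theorem per (hA : Flow s M A) (t : ℝ) (z : E K) (hz : z ∈ M) (h : A t z = z) (k : ℕ) :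
    A (k * t) z = z := by
  induction k with
  | zero => simp [hA.zero z hz]
  | succ k ih =>
    push_cast
    rw [add_mul, one_mul, hA.add _ _ z hz, h, ih]

theorem period (hA : Flow s M A) (z : E K) (hz : z ∈ M) (h : ∃ t, 0 < t ∧ t ≤ 8 ∧ A t z = z) :
    ∃ t, 4 ≤ t ∧ t ≤ 8 ∧ A t z = z := by
  obtain ⟨t, h0, h8, ht⟩ := h
  by_cases h4 : 4 ≤ t
  · exact ⟨t, h4, h8, ht⟩
  · push Not at h4
    refine ⟨(⌈4 / t⌉₊ : ℕ) * t, ?_, ?_, per hA t z hz ht _⟩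
    · have h1 : 4 / t ≤ (⌈4 / t⌉₊ : ℝ) := Nat.le_ceil _
      rwa [div_le_iff₀ h0] at h1
    · have h1 : (⌈4 / t⌉₊ : ℝ) < 4 / t + 1 := Nat.ceil_lt_add_one (by positivity)
      have h2 : (⌈4 / t⌉₊ : ℝ) * t < (4 / t + 1) * t := mul_lt_mul_of_pos_right h1 h0
      have h3 : (4 / t + 1) * t = 4 + t := by
        field_simp
      linarith

theorem unif (hM : IsCompact M) (hA : Flow s M A) (a b ε : ℝ) (hε : 0 < ε) :
    ∃ δ > 0, ∀ u ∈ Icc a b, ∀ u' ∈ Icc a b, ∀ z ∈ M, ∀ z' ∈ M, |u - u'| < δ → ‖z - z'‖ < δ →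
      ‖A u z - A u' z'‖ < ε := by
  have hc : ContinuousOn (fun p : ℝ × E K => A p.1 p.2) (Icc a b ×ˢ M) :=
    hA.smooth.continuousOn.mono (prod_mono (subset_univ _) subset_rfl)
  have hu := (isCompact_Icc.prod hM).uniformContinuousOn_of_continuous hc
  obtain ⟨δ, hδ, h⟩ := Metric.uniformContinuousOn_iff.1 hu ε hε
  refine ⟨δ, hδ, ?_⟩
  intro u hu u' hu' z hz z' hz' h1 h2
  have h3 := h (u, z) ⟨hu, hz⟩ (u', z') ⟨hu', hz'⟩ (by
    rw [Prod.dist_eq]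
    exact max_lt (by rwa [Real.dist_eq]) (by rwa [dist_eq_norm]))
  rwa [dist_eq_norm] at h3

/-- two closed orbits with close starting points and close periods stay together -/
theorem closed_pair (hA : Flow s M A) (ε δ : ℝ) (R : ℝ) (hR : 0 < R) (hδ : 0 < δ) (hδ1 : δ ≤ 1)
    (hun : ∀ u ∈ Icc (-1 : ℝ) 9, ∀ u' ∈ Icc (-1 : ℝ) 9, ∀ z ∈ M, ∀ z' ∈ M, |u - u'| < δ →
      ‖z - z'‖ < δ → ‖A u z - A u' z'‖ < ε)
    (z z' : E K) (hz : z ∈ M) (hz' : z' ∈ M) (t t' : ℝ) (h4 : 4 ≤ t) (h8 : t ≤ 8)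
    (ht : A t z = z) (ht' : A t' z' = z') (hzz : ‖z - z'‖ < δ) (htt : |t - t'| ≤ δ / R)
    (T : ℝ) (hT0 : 0 ≤ T) (hTR : T ≤ R) : ‖A T z - A T z'‖ < ε := by
  have ht0 : 0 < t := by linarith
  obtain ⟨j, hj⟩ : ∃ j : ℕ, j = ⌊T / t⌋₊ := ⟨_, rfl⟩
  have hj1 : (j : ℝ) ≤ T / t := by
    rw [hj]
    exact Nat.floor_le (by positivity)
  have hj2 : T / t < j + 1 := by
    rw [hj]
    exact Nat.lt_floor_add_one _
  have hj3 : (j : ℝ) * t ≤ T := by rwa [le_div_iff₀ ht0] at hj1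
  have hj4 : T < (j + 1) * t := by rwa [div_lt_iff₀ ht0] at hj2
  obtain ⟨u, hu⟩ : ∃ u : ℝ, u = T - j * t := ⟨_, rfl⟩
  have hu0 : 0 ≤ u := by linarith
  have hu1 : u < t := by linarith
  have hdj : |(j : ℝ) * (t - t')| < δ := by
    rw [abs_mul, abs_of_nonneg (Nat.cast_nonneg j)]
    have h1 : (j : ℝ) ≤ R / 4 := by
      have h2 : (j : ℝ) * 4 ≤ j * t := mul_le_mul_of_nonneg_left h4 (Nat.cast_nonneg j)
      linarith
    have h2 : (j : ℝ) * |t - t'| ≤ R / 4 * (δ / R) :=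
      mul_le_mul h1 htt (abs_nonneg _) (by positivity)
    have h3 : R / 4 * (δ / R) = δ / 4 := by
      field_simp
    linarith
  have e1 : A T z = A u z := by
    have h1 : T = u + j * t := by rw [hu]; ring
    rw [h1, hA.add _ _ z hz, per hA t z hz ht j]
  have e2 : A T z' = A (u + j * (t - t')) z' := by
    have h1 : T = (u + j * (t - t')) + j * t' := by rw [hu]; ring
    conv_lhs => rw [h1]
    rw [hA.add _ _ z' hz', per hA t' z' hz' ht' j]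
  rw [e1, e2]
  have hd1 := abs_lt.1 hdj
  apply hun u ⟨by linarith, by linarith⟩ _ ⟨by linarith [hd1.1], by linarith [hd1.2]⟩ z hz z' hz'
  · have h1 : u - (u + j * (t - t')) = -(j * (t - t')) := by ring
    rw [h1, abs_neg]
    exact hdj
  · exact hzz

/-- finite covers of a compact set by small balls -/
theorem cover (hM : IsCompact M) (δ : ℝ) (hδ : 0 < δ) : ∃ (C : ℕ) (idx : E K → ℕ),
    (∀ z ∈ M, idx z < C) ∧ ∀ z ∈ M, ∀ z' ∈ M, idx z = idx z' → ‖z - z'‖ < δ := by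
  obtain ⟨Y, hYf, hY⟩ := (Metric.totallyBounded_iff.1 hM.totallyBounded) (δ / 2) (by positivity)
  obtain ⟨Z, rfl⟩ := hYf.exists_finset_coe
  have h1 : ∀ z ∈ M, ∃ i : Fin Z.card, ‖z - (Z.equivFin.symm i : E K)‖ < δ / 2 := by
    intro z hz
    have h2 := hY hz
    simp only [mem_iUnion, Metric.mem_ball, dist_eq_norm] at h2
    obtain ⟨y, hy, hzy⟩ := h2
    exact ⟨Z.equivFin ⟨y, hy⟩, by simpa using hzy⟩
  classical
  refine ⟨Z.card, fun z => if hz : z ∈ M then ((h1 z hz).choose : ℕ) else 0, ?_, ?_⟩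
  · intro z hz
    simp only [dif_pos hz]
    exact (h1 z hz).choose.isLt
  · intro z hz z' hz' h
    simp only [dif_pos hz, dif_pos hz'] at h
    have h2 := (h1 z hz).choose_spec
    have h3 := (h1 z' hz').choose_spec
    have h4 : (h1 z hz).choose = (h1 z' hz').choose := Fin.ext h
    rw [← h4] at h3
    calc ‖z - z'‖ = ‖(z - (Z.equivFin.symm (h1 z hz).choose : E K)) -
          (z' - (Z.equivFin.symm (h1 z hz).choose : E K))‖ := by
            congr 1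
            abel
      _ ≤ ‖z - (Z.equivFin.symm (h1 z hz).choose : E K)‖ +
          ‖z' - (Z.equivFin.symm (h1 z hz).choose : E K)‖ := norm_sub_le _ _
      _ < δ := by linarith

theorem gBLK : StmtBLK := by
  intro K s M Λ A n hM hA hΛ hper hn ε hε
  have hε3 : 0 < ε / 3 := by positivity
  obtain ⟨δ₀, hδ₀, hun₀⟩ := unif hM hA (-1) 9 (ε / 3) hε3
  obtain ⟨δ, hδd⟩ : ∃ δ : ℝ, δ = min δ₀ 1 := ⟨_, rfl⟩
  have hδ : 0 < δ := by
    rw [hδd]
    exact lt_min hδ₀ one_pos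
  have hδ1 : δ ≤ 1 := by
    rw [hδd]
    exact min_le_right _ _
  have hδ2 : δ ≤ δ₀ := by
    rw [hδd]
    exact min_le_left _ _
  have hun : ∀ u ∈ Icc (-1 : ℝ) 9, ∀ u' ∈ Icc (-1 : ℝ) 9, ∀ z ∈ M, ∀ z' ∈ M, |u - u'| < δ →
      ‖z - z'‖ < δ → ‖A u z - A u' z'‖ < ε / 3 := fun u hu u' hu' z hz z' hz' h1 h2 =>
    hun₀ u hu u' hu' z hz z' hz' (lt_of_lt_of_le h1 hδ2) (lt_of_lt_of_le h2 hδ2)
  obtain ⟨C1, idx, hidx1, hidx2⟩ := cover hM δ hδ
  obtain ⟨N2, hN2d⟩ : ∃ N2 : ℕ, N2 = ⌈(n : ℝ) / δ⌉₊ := ⟨_, rfl⟩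
  have hn0 : (0 : ℝ) < n := by exact_mod_cast (lt_of_lt_of_le one_pos hn)
  have hN2 : (n : ℝ) / δ ≤ N2 := by
    rw [hN2d]
    exact Nat.le_ceil _
  have hN2pos : 0 < N2 := by
    have h1 : (0 : ℝ) < N2 := lt_of_lt_of_le (by positivity) hN2
    exact_mod_cast h1
  refine ⟨C1 * (5 * N2), ?_⟩
  intro L hL
  have hL0 : (0 : ℝ) < L := by exact_mod_cast (lt_of_lt_of_le one_pos hL)
  obtain ⟨R, hRd⟩ : ∃ R : ℝ, R = n * L := ⟨_, rfl⟩
  have hR : 0 < R := by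
    rw [hRd]
    positivity
  obtain ⟨η, hη, hηu⟩ := unif hM hA 0 R (ε / 3) hε3
  obtain ⟨W, hWd⟩ : ∃ W : ℕ, W = 5 * N2 * L := ⟨_, rfl⟩
  have hq0 : (0 : ℝ) < N2 * L := by positivity
  have hWpos : 0 < W := by
    rw [hWd]
    positivity
  have hfl : ∀ t : ℝ, 4 ≤ t → t ≤ 8 → ⌊(t - 4) * (N2 * L)⌋₊ < W := by
    intro t h4 h8
    rw [Nat.floor_lt (mul_nonneg (by linarith) hq0.le), hWd]
    push_cast
    have h1 : (t - 4) * ((N2 : ℝ) * L) ≤ 4 * (N2 * L) :=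
      mul_le_mul_of_nonneg_right (by linarith) hq0.le
    have h2 : 4 * ((N2 : ℝ) * L) < 5 * N2 * L := by nlinarith
    linarith
  have hfl2 : ∀ t t' : ℝ, 4 ≤ t → 4 ≤ t' →
      ⌊(t - 4) * ((N2 : ℝ) * L)⌋₊ = ⌊(t' - 4) * ((N2 : ℝ) * L)⌋₊ → |t - t'| ≤ δ / R := by
    intro t t' h4 h4' h
    have a1 : (⌊(t - 4) * ((N2 : ℝ) * L)⌋₊ : ℝ) ≤ (t - 4) * (N2 * L) :=
      Nat.floor_le (mul_nonneg (by linarith) hq0.le)
    have a2 : (t - 4) * ((N2 : ℝ) * L) < ⌊(t - 4) * ((N2 : ℝ) * L)⌋₊ + 1 := Nat.lt_floor_add_one _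
    have b1 : (⌊(t' - 4) * ((N2 : ℝ) * L)⌋₊ : ℝ) ≤ (t' - 4) * (N2 * L) :=
      Nat.floor_le (mul_nonneg (by linarith) hq0.le)
    have b2 : (t' - 4) * ((N2 : ℝ) * L) < ⌊(t' - 4) * ((N2 : ℝ) * L)⌋₊ + 1 :=
      Nat.lt_floor_add_one _
    rw [← h] at b1 b2
    have c1 : |(t - t') * ((N2 : ℝ) * L)| ≤ 1 := by
      rw [abs_le]
      constructor <;> linarith
    rw [abs_mul, abs_of_pos hq0] at c1
    have c2 : R ≤ δ * (N2 * L) := by
      rw [div_le_iff₀ hδ] at hN2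
      rw [hRd]
      have : (n : ℝ) * L ≤ N2 * δ * L := mul_le_mul_of_nonneg_right hN2 hL0.le
      linarith
    rw [le_div_iff₀ hR]
    calc |t - t'| * R ≤ |t - t'| * (δ * (N2 * L)) := mul_le_mul_of_nonneg_left c2 (abs_nonneg _)
      _ = δ * (|t - t'| * (N2 * L)) := by ring
      _ ≤ δ * 1 := mul_le_mul_of_nonneg_left c1 hδ.le
      _ = δ := mul_one _
  refine ⟨η, hη, fun i => {x | x ∈ M ∧ ∃ z ∈ Λ, ∃ t : ℝ, 4 ≤ t ∧ t ≤ 8 ∧ A t z = z ∧
    ‖x - z‖ < η ∧ idx z * W + ⌊(t - 4) * ((N2 : ℝ) * L)⌋₊ = i.val}, ?_, ?_⟩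
  · intro i
    refine ⟨fun x hx => hx.1, ?_⟩
    rintro x ⟨hx, z, hzΛ, t, h4, h8, ht, hxz, hc⟩ y ⟨hy, z', hzΛ', t', h4', h8', ht', hyz, hc'⟩ k hk
    have hz := hΛ hzΛ
    have hz' := hΛ hzΛ'
    have hf := hfl t h4 h8
    have hf' := hfl t' h4' h8'
    have hcode : idx z * W + ⌊(t - 4) * ((N2 : ℝ) * L)⌋₊ =
        idx z' * W + ⌊(t' - 4) * ((N2 : ℝ) * L)⌋₊ := by rw [hc, hc']
    have hmod : ⌊(t - 4) * ((N2 : ℝ) * L)⌋₊ = ⌊(t' - 4) * ((N2 : ℝ) * L)⌋₊ := by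
      have h1 := congrArg (fun m => m % W) hcode
      simp only [Nat.add_mod, Nat.mul_mod_left, zero_add, Nat.mod_mod] at h1
      rwa [Nat.mod_eq_of_lt hf, Nat.mod_eq_of_lt hf'] at h1
    have hdiv : idx z = idx z' := by
      rw [hmod] at hcode
      exact Nat.eq_of_mul_eq_mul_right hWpos (Nat.add_right_cancel hcode)
    have hzz := hidx2 z hz z' hz' hdiv
    have htt := hfl2 t t' h4 h4' hmod
    obtain ⟨T, hTd⟩ : ∃ T : ℝ, T = n * k := ⟨_, rfl⟩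
    have hT0 : 0 ≤ T := by
      rw [hTd]
      positivity
    have hTR : T ≤ R := by
      rw [hTd, hRd]
      exact mul_le_mul_of_nonneg_left (by exact_mod_cast hk) hn0.le
    rw [iter2 hA n k y hy, iter2 hA n k x hx, ← hTd]
    have g1 : ‖A T y - A T z'‖ < ε / 3 := hηu T ⟨hT0, hTR⟩ T ⟨hT0, hTR⟩ y hy z' hz'
      (by rw [sub_self, abs_zero]; exact hη) hyz
    have g2 : ‖A T x - A T z‖ < ε / 3 := hηu T ⟨hT0, hTR⟩ T ⟨hT0, hTR⟩ x hx z hz
      (by rw [sub_self, abs_zero]; exact hη) hxz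
    have g3 : ‖A T z - A T z'‖ < ε / 3 :=
      closed_pair hA (ε / 3) δ R hR hδ hδ1 hun z z' hz hz' t t' h4 h8 ht ht' hzz htt T hT0 hTR
    have g4 : A T y - A T x = (A T y - A T z') - (A T z - A T z') - (A T x - A T z) := by abel
    rw [g4]
    have g5 := norm_sub_le ((A T y - A T z') - (A T z - A T z')) (A T x - A T z)
    have g6 := norm_sub_le (A T y - A T z') (A T z - A T z')
    linarith
  · rintro x hx ⟨z, hzΛ, hxz⟩
    have hz := hΛ hzΛ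
    obtain ⟨t, h4, h8, ht⟩ := period hA z hz (hper z hzΛ)
    have hlt : idx z * W + ⌊(t - 4) * ((N2 : ℝ) * L)⌋₊ < C1 * (5 * N2) * L := by
      have h1 := hidx1 z hz
      have h2 := hfl t h4 h8
      have h3 : C1 * (5 * N2) * L = C1 * W := by
        rw [hWd]
        ring
      rw [h3]
      calc idx z * W + ⌊(t - 4) * ((N2 : ℝ) * L)⌋₊ < idx z * W + W := Nat.add_lt_add_left h2 _
        _ = (idx z + 1) * W := by ring
        _ ≤ C1 * W := Nat.mul_le_mul_right W h1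
    exact ⟨⟨_, hlt⟩, hx, z, hzΛ, t, h4, h8, ht, hxz, rfl⟩

end Pool.Agent.Helper50.TOF
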